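import Pool.Agent.H.MP_bfbbee_an.ES.Sup
import Pool.Agent.H.MP_bfbbee_an.Top

/-!
# First integrals of geodesic flows in genus at least two: away from one value the geodesics are
uniformly not minimising
-/

set_option autoImplicit false

open Pool.Agent.H.MP_bfbbee_an Pool.Agent.H.MP_bfbbee_an.FL Pool.Agent.H.MP_bfbbee_an.ES

namespace Pool.Agent.Results.MP_bfbbee_an.EscapeRate

theorem result : ∀ u : ℂ → ℝ, ContDiffOn ℝ 2 u Disc → ∀ R : ℝ, ∃ C : ℝ,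
    ∀ F : ℂ × ℝ → ℝ, FirstIntegral u F → CocoF u F R → ∃ c : ℝ,
      (∀ δ > 0, ∃ η > 0, ∀ T ≥ 0, ∀ (z : ℝ → ℂ) (θ : ℝ → ℝ), IsGeodesicOn u 0 T z θ →
        δ ≤ |F (z 0, θ 0) - c| → dst u (z 0) (z T) ≤ (1 - η) * T + C) ∧
      (∀ α ∈ Set.Icc 0 (Real.pi / 2), ∀ δ : ℝ,
        (∀ x ∈ Disc, ∀ θ θ' : ℝ, |θ - θ'| ≤ α → |F (x, θ) - F (x, θ')| ≤ δ) →
          ∀ T ≥ 0, ∀ (z : ℝ → ℂ) (θ : ℝ → ℝ), IsGeodesicOn u 0 T z θ →
            δ < |F (z 0, θ 0) - c| → dst u (z 0) (z T) ≤ Real.cos α * T + C) ∧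
      (∀ δ : ℝ, (∀ x ∈ Disc, ∀ θ θ' : ℝ, |θ - θ'| ≤ Real.pi / 2 →
        |F (x, θ) - F (x, θ')| ≤ δ) → ∀ x ∈ Disc, ∀ θ : ℝ, |F (x, θ) - c| ≤ δ) ∧
      ∀ m : ℕ, 1 ≤ m → ContDiffOn ℝ m F (Disc ×ˢ Set.univ) → ∃ κ > 0,
        ∀ T ≥ 0, ∀ (z : ℝ → ℂ) (θ : ℝ → ℝ), IsGeodesicOn u 0 T z θ →
          dst u (z 0) (z T) ≤ (1 - κ * |F (z 0, θ 0) - c| ^ ((2 : ℝ) / m)) * T + C := by
  intro u hu R
  by_cases hcoC : Coco u R
  · obtain ⟨A, M⟩ := exists_met hu hcoC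
    obtain ⟨D, hD0, hD⟩ := shadow_uniform M hcoC
    refine ⟨2 * D, fun F hF hco => ?_⟩
    obtain ⟨c, hc⟩ := exists_value M hF hco
    refine ⟨c, fun δ hδ => ?_, fun α hα δ hosc T hT z θ hz hv =>
      rate_osc M hF hco hD0 hD hc hα.1 hosc T hT z θ hz hv,
      fun δ hosc x hx θ => sup_le M hF hco hD0 hD hc hosc x hx θ, fun m hm hC => ?_⟩
    · obtain ⟨β, hβ0, hβ1, hβ⟩ := unif_osc hF hco (half_pos hδ)
      refine ⟨1 - Real.cos β, ?_, fun T hT z θ hz hv => ?_⟩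
      · have h1 := Real.cos_lt_cos_of_nonneg_of_le_pi le_rfl hβ1 hβ0
        rw [Real.cos_zero] at h1
        linarith
      · have h1 := rate_osc M hF hco hD0 hD hc hβ0.le hβ T hT z θ hz
          (lt_of_lt_of_le (half_lt_self hδ) hv)
        rwa [sub_sub_cancel]
    · obtain ⟨K, hK0, hK⟩ := fibre_bound hF hco c hC
      refine ⟨2 / Real.pi ^ 2 / K ^ ((2 : ℝ) / m), by
        have h1 : 0 < K ^ ((2 : ℝ) / m) := Real.rpow_pos_of_pos hK0 _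
        have h2 := Real.pi_pos
        positivity, fun T hT z θ hz => ?_⟩
      exact rate_main M hF hco hD0 hD (fun ξ hξ => good_flat M hF hc hC hξ)
        (fun x hx θ' ϑ hJ hf => by
          have h1 := cos_le_flat hF hm hK0 hK hx (θ := θ') hJ
          rw [hf] at h1
          exact h1) T hT z θ hz rfl
  · refine ⟨0, fun F hF hco => absurd ⟨hco.pos, hco.lt, fun z hz => ?_⟩ hcoC⟩
    obtain ⟨w, a, h1, -, h2⟩ := hco.move z hz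
    exact ⟨w, a, h1, h2⟩

end Pool.Agent.Results.MP_bfbbee_an.EscapeRate
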