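import Pool.Agent.H.MP_bfbbee_an.helper67.T4G

/-!
# Metrics on surfaces of genus at least two which are almost integrable in every fibre
-/

set_option autoImplicit false

open Pool.Agent.H.MP_bfbbee_an Pool.Agent.H.MP_bfbbee_an.F4 MeasureTheory
open scoped ContDiff

namespace Pool.Agent.Results.MP_bfbbee_an.FibrewiseAlmost

theorem result : ∀ G : Set (ℂ × ℂ), SurfaceGroup G → ∀ ε : ℝ, 0 < ε →
    ∃ (u : ℂ → ℝ) (F : ℂ × ℝ → ℝ), ContDiffOn ℝ ∞ u Disc ∧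
      ContDiffOn ℝ ∞ F (Disc ×ˢ Set.univ) ∧ FirstIntegral u F ∧
      (∀ g ∈ G, Sym u g.1 g.2 ∧ FSym F g.1 g.2) ∧
      ∀ z ∈ Disc, volume {θ : ℝ | θ ∈ Set.Icc 0 (2 * Real.pi) ∧ fderiv ℝ F (z, θ) = 0} <
        ENNReal.ofReal ε :=
  fun _ h _ hε => main_group h hε

end Pool.Agent.Results.MP_bfbbee_an.FibrewiseAlmost
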