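import Pool.Agent.H.MP_bfbbee_an.helper78.FlatLim
import Pool.Agent.H.MP_bfbbee_an.helper78.Arcs

/-!
# First integrals of geodesic flows in genus at least two: one value on long minimal arcs, flat on
limit sets of minimal rays
-/

set_option autoImplicit false

open Pool.Agent.H.MP_bfbbee_an Pool.Agent.H.MP_bfbbee_an.FL

namespace Pool.Agent.Results.MP_bfbbee_an.FlatLimits

theorem result : ∀ u : ℂ → ℝ, ContDiffOn ℝ 2 u Disc →
    ∀ F : ℂ × ℝ → ℝ, FirstIntegral u F → (∃ R, CocoF u F R) →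
      ∃ c : ℝ,
        (∀ δ > 0, ∃ L > 0, ∀ (σ : ℝ → ℂ) (θ : ℝ → ℝ), IsoOn u 0 L σ →
          IsGeodesicOn u 0 L σ θ → |F (σ 0, θ 0) - c| < δ) ∧
        ∀ (r : ℝ → ℂ) (θ : ℝ → ℝ), GRay u r θ →
          ∀ (w a : ℕ → ℂ) (t : ℕ → ℝ) (x : ℂ) (ω : ℝ),
            (∀ n, Sym u (w n) (a n) ∧ FSym F (w n) (a n)) →
            Filter.Tendsto t Filter.atTop Filter.atTop → x ∈ Disc →
            Filter.Tendsto (fun n => mob (w n) (a n) (r (t n))) Filter.atTop (nhds x) →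
            Filter.Tendsto (fun n => dir (θ (t n)) * (mobd (w n) (a n) (r (t n)) /
              (‖mobd (w n) (a n) (r (t n))‖ : ℂ))) Filter.atTop (nhds (dir ω)) →
            F (x, ω) = c ∧ ∀ m : ℕ, 1 ≤ m → ContDiffOn ℝ m F (Disc ×ˢ Set.univ) →
              iteratedFDeriv ℝ m F (x, ω) = 0 := by
  intro u hu F hF hco
  obtain ⟨R, hco⟩ := hco
  have hcoC : Coco u R := ⟨hco.pos, hco.lt, fun z hz => by
    obtain ⟨w, a, h1, -, h2⟩ := hco.move z hz
    exact ⟨w, a, h1, h2⟩⟩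
  obtain ⟨A, M⟩ := exists_met hu hcoC
  obtain ⟨c, hc⟩ := exists_value M hF hco
  exact ⟨c, fun _ hδ => long_arcs_val M hF hco hc hδ, fun r θ hg w a t x ω hs ht hx h1 h2 =>
    flat_limits M hF hcoC hc hg (fun n => (hs n).1) (fun n => (hs n).2) ht hx h1 h2⟩

end Pool.Agent.Results.MP_bfbbee_an.FlatLimits
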