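import Pool.Agent.H.MP_bfbbee_an.helper78.FlatTop

/-!
# First integrals of geodesic flows in genus at least two are flat along minimal rays
-/

set_option autoImplicit false

open Pool.Agent.H.MP_bfbbee_an Pool.Agent.H.MP_bfbbee_an.FL

namespace Pool.Agent.Results.MP_bfbbee_an.FlatRays

theorem result : ∀ u : ℂ → ℝ, ContDiffOn ℝ 2 u Disc → (∃ R, Coco u R) →
    ∃ α : NNReal, 0 < α ∧ ∀ F : ℂ × ℝ → ℝ, FirstIntegral u F → (∃ R, CocoF u F R) →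
      ∃ c : ℝ, ∀ x ∈ Disc,
        (∀ ξ : ℂ, ‖ξ‖ = 1 → ∃ r θ, FlatRay u F c r θ ∧ r 0 = x ∧
          Filter.Tendsto r Filter.atTop (nhds ξ)) ∧
        (α : ENNReal) ≤ dimH {ω : ℝ | ∃ r θ, FlatRay u F c r θ ∧ r 0 = x ∧ θ 0 = ω} :=
  fun _ hu hco => hco.elim fun _ h => flat_rays hu h

end Pool.Agent.Results.MP_bfbbee_an.FlatRays
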